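import Pool.Agent.MP_3ee8cb_gt.DNTR.Fin

/-! The Cartan transport to de Sitter space as a map of the whole phase space. -/

namespace Pool.Agent.MP_3ee8cb_gt.CYX

open DN DNTR Set
open scoped RealInnerProductSpace

variable [Dim]

noncomputable section

/-- The transport `X` of vectors to the point `o`, with its first order estimates. -/
structure XI (m : MF) (lg : V × V → V) (a δ c K : ℝ) (o : V) (X : V × V → ℝ × V) : Prop where
  c1 : ContDiff ℝ 1 X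
  lin : ∀ (y : V) (r : ℝ) (w : V), X (y, r • w) = r • X (y, w)
  nm : ∀ z, ‖(X z).2‖ ^ 2 - (X z).1 ^ 2 = ‖z.2‖ ^ 2
  est : ∀ z : V × V, ‖z.2‖ = 1 → a * ‖lg (z.1, o)‖ ≤ 3 / 2 → ‖(X z).2‖ ≤ K ∧
    ∀ (η : V × V) (β : ℝ), 0 ≤ β → β ≤ 1 → ⟪z.2, m.hor z η⟫ = 0 →
      a * ‖m.hor z η‖ ≤ β * ‖m.ver z η‖ →
      ‖(fderiv ℝ X z η).2‖ ≤ K * ‖m.ver z η‖ ∧
      |(fderiv ℝ X z η).1| ≤ K * (a * ‖lg (z.1, o)‖) * ‖m.ver z η‖ ∧
      (1 - c * δ * (a * ‖lg (z.1, o)‖) * β) * ‖m.ver z η‖ ^ 2 ≤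
        ‖(fderiv ℝ X z η).2‖ ^ 2 - (fderiv ℝ X z η).1 ^ 2

variable {m : MF} {lg : V × V → V} {k : ℝ} {P : ℝ → V × V → ℝ × V →L[ℝ] ℝ × V}

/-- The starting point in the extended phase space. -/
def sx (lg : V × V → V) (o : V) (z : V × V) : Q := ((z.1, lg (z.1, o)), 0, z.2)

theorem sx_c1 (hl : m.Had lg) (o : V) : ContDiff ℝ 1 (sx lg o) :=
  (contDiff_fst.prodMk (hl.c1.comp (contDiff_fst.prodMk contDiff_const))).prodMk
    (contDiff_const.prodMk contDiff_snd)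

theorem sx_der (hl : m.Had lg) (o : V) (z : V × V) :
    ∃ D : V × V →L[ℝ] Q, HasFDerivAt (sx lg o) D z ∧ ∀ e, (D e).1.1 = e.1 ∧
      (D e).2 = (0, e.2) := by
  have d1 : HasFDerivAt (fun z : V × V => z.1) (.fst ℝ V V) z := hasFDerivAt_fst
  have d3 : HasFDerivAt (fun z : V × V => z.2) (.snd ℝ V V) z := hasFDerivAt_snd
  have d2 := (hl.c1.differentiable one_ne_zero (z.1, o)).hasFDerivAt.comp z
    (d1.prodMk (hasFDerivAt_const o z))
  exact ⟨_, (d1.prodMk d2).prodMk ((hasFDerivAt_const (0 : ℝ) z).prodMk d3),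
    fun e => ⟨rfl, rfl⟩⟩

/-- The transported vector. -/
def xi (P : ℝ → V × V → ℝ × V →L[ℝ] ℝ × V) (lg : V × V → V) (o : V) (z : V × V) : ℝ × V :=
  P 1 (sx lg o z).1 (sx lg o z).2

theorem ends (h : m.OK) (hP : Tp m k P) (hl : m.Had lg) (o : V) (z e : V × V)
    (leg : ⟪z.2, m.hor z e⟫ = 0) : ∃ ζ : Q, m.J (sx lg o z).1 ζ.1 0 = m.hor z e ∧
      m.J (sx lg o z).1 ζ.1 1 = 0 ∧ ps0 m k P (sx lg o z) ζ 0 = 0 ∧
      ps1 m k P (sx lg o z) ζ 0 = m.ver z e ∧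
      ps0 m k P (sx lg o z) ζ 1 = (fderiv ℝ (xi P lg o) z e).1 ∧
      ps1 m k P (sx lg o z) ζ 1 = (fderiv ℝ (xi P lg o) z e).2 := by
  obtain ⟨D, hD, hv'⟩ := sx_der hl o z
  have z0 : m.Z 0 = id := funext h.zero
  have j0 : m.J (sx lg o z).1 (D e).1 0 = m.hor z e := by
    simp only [MF.J, z0, fderiv_id, id, ContinuousLinearMap.id_apply]
    change m.S z.1 (D e).1.1 = m.S z.1 e.1
    rw [(hv' e).1]
  have f1 : (fderiv ℝ (m.Z 1) (sx lg o z).1 (D e).1).1 = 0 := by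
    have a := ((dZ h 1 (sx lg o z).1).comp z hD.fst).fst
    have b : (fun x => ((m.Z 1 ∘ fun x => (sx lg o x).1) x).1) = fun _ => o :=
      funext fun x => hl.ex _ _
    rw [b] at a
    exact congrArg (fun L : V × V →L[ℝ] V => L e) (a.unique (hasFDerivAt_const o z))
  have j1 : m.J (sx lg o z).1 (D e).1 1 = 0 := by
    change m.S _ (fderiv ℝ (m.Z 1) (sx lg o z).1 (D e).1).1 = 0
    rw [f1, map_zero]
  have c := (dP hP 1 (sx lg o z)).comp z hD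
  have ce : fderiv ℝ (xi P lg o) z e =
      fderiv ℝ (fun q : Q => P 1 q.1 q.2) (sx lg o z) (D e) :=
    congrArg (fun L : V × V →L[ℝ] ℝ × V => L e) c.fderiv
  refine ⟨D e, j0, j1, ?_, ?_, ?_, ?_⟩
  · rw [real_inner_comm] at leg
    simp only [ps0, j0, hP.zero, fderiv_snd, ContinuousLinearMap.coe_snd', (hv' e).2]
    change 0 + k * ⟪m.hor z e, z.2⟫ = 0
    rw [leg]
    simp
  · simp only [ps1, z0, hP.zero, fderiv_snd, ContinuousLinearMap.coe_snd', (hv' e).2,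
      fderiv_id, id, ContinuousLinearMap.id_apply, (hv' e).1]
    change _ + _ + (k * 0) • _ = _
    rw [mul_zero, zero_smul, add_zero]
    rfl
  · simp only [ps0, j1, inner_zero_left, mul_zero, add_zero, ce]
  · simp only [ps1, j1, f1, map_zero, smul_zero, add_zero, zero_apply, ce]

theorem xi_of (hpol : SPOL) {G : ℝ} (hG : G = Real.exp 2) {δ a : ℝ} (δ0 : 0 ≤ δ) (δ1 : δ ≤ 1)
    (h : m.OK) (hj : m.Jac) (hl : m.Had lg) (a0 : 0 < a) (u0 : m.Up 0) (ua : m.Up (a ^ 2))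
    (dn : m.Dn ((1 + δ) * a ^ 2)) (o : V) :
    ∃ X, XI m lg a δ (4 * G * (G * (1 + 3 * G))) (G * (1 + 3 * G)) o X := by
  have G0 : 0 < G := hG ▸ Real.exp_pos 2
  have G2 : Real.exp (2 * (3 / 2) + 1) = G ^ 2 := by
    rw [hG, ← Real.exp_nat_mul]
    norm_num
  obtain ⟨P, hP⟩ := exists_tp h a
  refine ⟨xi P lg o, (hP.c1.comp (f := fun q : Q => (1, q))
    (contDiff_const.prodMk contDiff_id)).comp (sx_c1 hl o), fun y r w => ?_, fun z => ?_,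
    fun z hv r1 => ?_⟩
  · simp only [xi, sx]
    rw [← map_smul]
    simp
  · have := lor0 (bo0 h hP (sx lg o z).1 (sx lg o z).2)
    simp only [hP.zero] at this
    simpa [xi, sx] using this
  obtain ⟨r, hr⟩ : ∃ r, r = a * ‖lg (z.1, o)‖ := ⟨_, rfl⟩
  have r0 : 0 ≤ r := hr ▸ mul_nonneg a0.le (norm_nonneg _)
  rw [← hr] at r1
  have hb' : ∀ t, a * ‖(m.Z t (sx lg o z).1).2‖ = r := fun t => by
    rw [hj.norm, hr]
    rfl
  have hb : ∀ t, |a| * ‖(m.Z t (sx lg o z).1).2‖ ≤ 3 / 2 := fun t => by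
    rw [abs_of_pos a0, hb']
    exact r1
  have hX : ∀ t ∈ Icc (0 : ℝ) 1, ‖(P t (sx lg o z).1 (sx lg o z).2).2‖ ≤ G := fun t ht => by
    have := (bo0 h hP (sx lg o z).1 (sx lg o z).2).euc (φ := 0) hb (fun _ _ => by simp) ht
    simp only [hP.zero, G2] at this
    refine le_of_sq G0.le (this.trans (le_of_eq ?_))
    simp [sx, hv]
  have o1 : (1 : ℝ) ∈ Icc (0 : ℝ) 1 := right_mem_Icc.mpr zero_le_one
  refine ⟨(hX 1 o1).trans (by nlinarith), fun e β β0 β1 leg hβ => ?_⟩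
  obtain ⟨ζ, j0, j1, e0, e1, e2, e3⟩ := ends h hP hl o z e leg
  rw [← e2, ← e3, ← hr]
  obtain ⟨α, hα⟩ : ∃ α, α = ‖m.ver z e‖ := ⟨_, rfl⟩
  have α0 : 0 ≤ α := hα ▸ norm_nonneg _
  rw [← hα] at hβ ⊢
  have B := bo1 h hP hj (sx lg o z) ζ
  have hF : ∀ t ∈ Icc (0 : ℝ) 1, ‖kt m a (m.Z t (sx lg o z).1).1 (m.Z t (sx lg o z).1).2
      (m.J (sx lg o z).1 ζ.1 t) (P t (sx lg o z).1 (sx lg o z).2).2‖ ≤
        2 * δ * r * (β * α) * G := fun t ht => by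
    refine (hpol m (a ^ 2) ((1 + δ) * a ^ 2) h hj ua dn _ _ _ _).trans ?_
    have c1 := jac_le h hj u0 _ _ j1 ht
    rw [j0] at c1
    have c2 : a * ‖m.J (sx lg o z).1 ζ.1 t‖ ≤ β * α :=
      (mul_le_mul_of_nonneg_left c1 a0.le).trans hβ
    have c3 : 2 * ((1 + δ) * a ^ 2 - a ^ 2) * ‖(m.Z t (sx lg o z).1).2‖ *
        ‖m.J (sx lg o z).1 ζ.1 t‖ = 2 * δ * r * (a * ‖m.J (sx lg o z).1 ζ.1 t‖) := by
      rw [← hb' t]
      ring
    rw [c3]
    exact mul_le_mul (mul_le_mul_of_nonneg_left c2 (by positivity)) (hX t ht) (norm_nonneg _)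
      (by positivity)
  have hφ : 2 * δ * r * (β * α) * G ≤ 3 * G * α := by
    have c1 : δ * r ≤ 3 / 2 := by nlinarith
    have c2 : δ * r * β ≤ 3 / 2 := by nlinarith [mul_nonneg δ0 r0]
    nlinarith [mul_nonneg G0.le α0]
  have φ0 : 0 ≤ 2 * δ * r * (β * α) * G := by positivity
  have hM : ∀ t ∈ Icc (0 : ℝ) 1, ‖ps1 m a P (sx lg o z) ζ t‖ ≤ G * (1 + 3 * G) * α :=
    fun t ht => by
      have := B.euc hb hF ht
      rw [G2, e0, e1, ← hα] at this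
      refine le_of_sq (by positivity) (this.trans ?_)
      have c1 : (2 * δ * r * (β * α) * G) ^ 2 ≤ (3 * G * α) ^ 2 := pow_le_pow_left₀ φ0 hφ 2
      have c2 : 0 ^ 2 + α ^ 2 + (2 * δ * r * (β * α) * G) ^ 2 ≤ ((1 + 3 * G) * α) ^ 2 := by
        nlinarith [mul_nonneg G0.le (sq_nonneg α)]
      calc _ ≤ G ^ 2 * ((1 + 3 * G) * α) ^ 2 := mul_le_mul_of_nonneg_left c2 (sq_nonneg G)
        _ = _ := by ring
  refine ⟨hM 1 o1, ?_, ?_⟩
  · have hd : ∀ s ∈ Icc (0 : ℝ) 1, |a * ⟪(m.Z s (sx lg o z).1).2,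
        ps1 m a P (sx lg o z) ζ s⟫| ≤ G * (1 + 3 * G) * r * α := fun s hs => by
      rw [abs_mul, abs_of_pos a0]
      calc _ ≤ a * (‖(m.Z s (sx lg o z).1).2‖ * ‖ps1 m a P (sx lg o z) ζ s‖) :=
            mul_le_mul_of_nonneg_left (abs_real_inner_le_norm _ _) a0.le
        _ = r * ‖ps1 m a P (sx lg o z) ζ s‖ := by rw [← mul_assoc, hb']
        _ ≤ r * (G * (1 + 3 * G) * α) := mul_le_mul_of_nonneg_left (hM s hs) r0
        _ = _ := by ring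
    have k1 := le_of_der B.d0 (fun s hs => (neg_le_abs _).trans (hd s hs)) o1
    have k2 := le_of_der (fun s => (B.d0 s).neg) (fun s hs => by
      rw [neg_neg]
      exact (le_abs_self _).trans (hd s hs)) o1
    simp only [Pi.neg_apply, e0] at k1 k2
    exact abs_le.2 ⟨by linarith, by linarith⟩
  · have := (abs_le.mp (B.lor hM hF)).1
    rw [e0, e1, ← hα] at this
    nlinarith

end

end Pool.Agent.MP_3ee8cb_gt.CYX
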