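import Mathlib

/-! A strict homogeneous inequality on a closed cone survives small perturbations. -/

namespace Pool.Agent.MP_3ee8cb_gt.CYX

open Set Filter Topology Metric
open scoped RealInnerProductSpace

theorem cone {E W : Type} [NormedAddCommGroup E] [NormedSpace ℝ E] [FiniteDimensional ℝ E]
    [NormedAddCommGroup W] [NormedSpace ℝ W] (D : E →L[ℝ] W) (l : E →L[ℝ] ℝ) {g : E → ℝ}
    {G : W → ℝ} (cg : Continuous g) (cG : Continuous G)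
    (hg : ∀ (r : ℝ) η, 0 < r → g (r • η) = r ^ 2 * g η)
    (hG : ∀ (r : ℝ) ζ, 0 < r → G (r • ζ) = r ^ 2 * G ζ)
    (h : ∀ η, η ≠ 0 → l η = 0 → g η ≤ 0 → 0 < G (D η)) :
    ∃ ε, 0 < ε ∧ ∀ η ζ, η ≠ 0 → |l η| ≤ ε * ‖η‖ → g η ≤ ε * ‖η‖ ^ 2 → ‖ζ - D η‖ ≤ ε * ‖η‖ →
      0 < G ζ := by
  have key : ∀ᶠ q : ℝ × W in 𝓝 (0, 0), ∀ η ∈ sphere (0 : E) 1,
      |l η| ≤ q.1 → g η ≤ q.1 → 0 < G (D η + q.2) := by
    refine (isCompact_sphere (0 : E) 1).eventually_forall_of_forall_eventually fun η hη => ?_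
    have η0 : η ≠ 0 := by
      rintro rfl
      simp at hη
    by_cases h1 : l η = 0
    · by_cases h2 : g η ≤ 0
      · have c : Continuous fun p : (ℝ × W) × E => G (D p.2 + p.1.2) := by fun_prop
        have : ∀ᶠ p : (ℝ × W) × E in 𝓝 ((0, 0), η), 0 < G (D p.2 + p.1.2) :=
          c.continuousAt.eventually (lt_mem_nhds (by simpa using h η η0 h1 h2))
        exact this.mono fun p hp _ _ => hp
      · have c : Continuous fun p : (ℝ × W) × E => g p.2 - p.1.1 := by fun_prop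
        have : ∀ᶠ p : (ℝ × W) × E in 𝓝 ((0, 0), η), 0 < g p.2 - p.1.1 :=
          c.continuousAt.eventually (lt_mem_nhds (by simpa using h2))
        exact this.mono fun p hp _ h4 => absurd h4 (by linarith)
    · have c : Continuous fun p : (ℝ × W) × E => |l p.2| - p.1.1 := by fun_prop
      have : ∀ᶠ p : (ℝ × W) × E in 𝓝 ((0, 0), η), 0 < |l p.2| - p.1.1 :=
        c.continuousAt.eventually (lt_mem_nhds (by simpa using h1))
      exact this.mono fun p hp h3 _ => absurd h3 (by linarith)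
  obtain ⟨e, e0, he⟩ := Metric.eventually_nhds_iff.1 key
  refine ⟨e / 2, by positivity, fun η ζ η0 h1 h2 h3 => ?_⟩
  have n0 : 0 < ‖η‖ := norm_pos_iff.2 η0
  have i0 : 0 < ‖η‖⁻¹ := inv_pos.2 n0
  have a1 : ‖‖η‖⁻¹ • (ζ - D η)‖ ≤ e / 2 := by
    rw [norm_smul, norm_inv, norm_norm, inv_mul_le_iff₀ n0, mul_comm]
    exact h3
  have := @he (e / 2, ‖η‖⁻¹ • (ζ - D η)) (by
    rw [Prod.dist_eq, dist_zero_right, dist_zero_right, Real.norm_eq_abs, abs_of_pos (by positivity)]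
    exact max_lt (by linarith) (by linarith)) (‖η‖⁻¹ • η) (by
      simp [norm_smul, n0.ne']) (by
      rw [map_smul, smul_eq_mul, abs_mul, abs_of_pos i0, inv_mul_le_iff₀ n0, mul_comm]
      exact h1) (by
      rw [hg _ _ i0, inv_pow, inv_mul_le_iff₀ (by positivity), mul_comm]
      exact h2)
  rw [map_smul, ← smul_add, add_sub_cancel, hG _ _ i0] at this
  exact pos_of_mul_pos_left' this
where
  pos_of_mul_pos_left' {a b : ℝ} (h : 0 < a ^ 2 * b) : 0 < b := by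
    by_contra hb
    nlinarith [sq_nonneg a, not_lt.1 hb]

/-- From unit vectors to the cone over them. -/
theorem lor_cone {E : Type} [NormedAddCommGroup E] [InnerProductSpace ℝ E] {x y : E}
    {s t p q : ℝ} (h1 : ‖x‖ ^ 2 - s ^ 2 = 1) (h2 : ‖y‖ ^ 2 - t ^ 2 = 1) :
    ‖p • x - q • y‖ ^ 2 - (p * s - q * t) ^ 2 =
      (p - q) ^ 2 + p * q * (‖x - y‖ ^ 2 - (s - t) ^ 2) := by
  rw [norm_sub_sq_real, norm_sub_sq_real, norm_smul, norm_smul, mul_pow, mul_pow,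
    Real.norm_eq_abs, Real.norm_eq_abs, sq_abs, sq_abs, inner_smul_left, inner_smul_right]
  simp only [conj_trivial]
  have a : ‖x‖ ^ 2 = 1 + s ^ 2 := by linarith
  have b : ‖y‖ ^ 2 = 1 + t ^ 2 := by linarith
  rw [a, b]
  ring

theorem cone_bd {E : Type} [NormedAddCommGroup E] [InnerProductSpace ℝ E] {x y : E}
    {s t p q K f : ℝ} (K1 : 1 ≤ K) (h1 : ‖x‖ ^ 2 - s ^ 2 = 1) (h2 : ‖y‖ ^ 2 - t ^ 2 = 1)
    (hx : ‖x‖ ≤ K) (p0 : 9 / 10 ≤ p) (q0 : 9 / 10 ≤ q) (q1 : q ≤ 11 / 10)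
    (hA : 3 / (4 * K ^ 2) * ‖x - y‖ ^ 2 ≤ ‖x - y‖ ^ 2 - (s - t) ^ 2)
    (hB : f ^ 2 ≤ 2 * (‖x - y‖ ^ 2 - (s - t) ^ 2)) :
    (p * s - q * t) ^ 2 ≤ (1 - 1 / (4 * K ^ 2)) * ‖p • x - q • y‖ ^ 2 ∧
      f ^ 2 ≤ (2 * ‖p • x - q • y‖) ^ 2 ∧
      (p - q) ^ 2 + 1 / 2 * (‖x - y‖ ^ 2 - (s - t) ^ 2) ≤ ‖p • x - q • y‖ ^ 2 := by
  have e := lor_cone (p := p) (q := q) h1 h2
  obtain ⟨L, hL⟩ : ∃ L, L = ‖x - y‖ ^ 2 - (s - t) ^ 2 := ⟨_, rfl⟩
  rw [← hL] at e hA hB ⊢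
  have K0 : 0 < K := by linarith
  have L0 : 0 ≤ L := le_trans (by positivity) hA
  have pq : 81 / 100 ≤ p * q := by nlinarith
  have u : ‖p • x - q • y‖ ≤ |p - q| * K + q * ‖x - y‖ := by
    have : p • x - q • y = (p - q) • x + q • (x - y) := by
      rw [sub_smul, smul_sub]
      abel
    rw [this]
    refine (norm_add_le _ _).trans (add_le_add ?_ (le_of_eq ?_))
    · rw [norm_smul, Real.norm_eq_abs]
      exact mul_le_mul_of_nonneg_left hx (abs_nonneg _)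
    · rw [norm_smul, Real.norm_eq_abs, abs_of_pos (by linarith)]
  have u2 : ‖p • x - q • y‖ ^ 2 ≤ 2 * K ^ 2 * (p - q) ^ 2 + 2 * q ^ 2 * ‖x - y‖ ^ 2 := by
    have := pow_le_pow_left₀ (norm_nonneg _) u 2
    rw [← sq_abs (p - q)]
    nlinarith [sq_nonneg (|p - q| * K - q * ‖x - y‖)]
  have hA' : 3 * ‖x - y‖ ^ 2 ≤ 4 * K ^ 2 * L := by
    rw [div_mul_eq_mul_div, div_le_iff₀ (by positivity)] at hA
    linarith
  have q2 : q ^ 2 ≤ 121 / 100 := by nlinarith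
  have u3 : ‖p • x - q • y‖ ^ 2 ≤ 4 * K ^ 2 * ((p - q) ^ 2 + p * q * L) := by
    have a1 : 2 * q ^ 2 * ‖x - y‖ ^ 2 ≤ 2 * (121 / 100) * ‖x - y‖ ^ 2 := by
      nlinarith [sq_nonneg ‖x - y‖]
    have a2 : 4 * K ^ 2 * L * (81 / 100) ≤ 4 * K ^ 2 * L * (p * q) :=
      mul_le_mul_of_nonneg_left pq (by positivity)
    nlinarith [mul_nonneg (sq_nonneg K) (sq_nonneg (p - q)), sq_nonneg ‖x - y‖]
  have u4 : 1 / (4 * K ^ 2) * ‖p • x - q • y‖ ^ 2 ≤ (p - q) ^ 2 + p * q * L := by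
    rw [div_mul_eq_mul_div, div_le_iff₀ (by positivity)]
    linarith
  have u5 : 81 / 100 * L ≤ p * q * L := mul_le_mul_of_nonneg_right pq L0
  refine ⟨by linarith, ?_, ?_⟩
  · nlinarith [sq_nonneg (p * s - q * t), sq_nonneg (p - q)]
  · nlinarith [sq_nonneg (p * s - q * t)]

end Pool.Agent.MP_3ee8cb_gt.CYX
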