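import Pool.Agent.MP_3ee8cb_gt.CYX.Xi
import Pool.Agent.MP_3ee8cb_gt.CYX.Cone
import Pool.Agent.MP_3ee8cb_gt.CYF.Spec
import Pool.Agent.MP_3ee8cb_gt.CYP.Chart
import Pool.Agent.MP_3ee8cb_gt.DF.RDER

/-! Two point bounds for a continuous front transported to de Sitter space. -/

namespace Pool.Agent.MP_3ee8cb_gt.CYX

open DN Set Filter Topology
open scoped RealInnerProductSpace

variable [Dim]

noncomputable section

variable {m : MF} {lg : V × V → V} {σ : V → V × V} {a δ c K : ℝ} {o : V} {X : V × V → ℝ × V}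

/-- The two strict inequalities, as one function. -/
def gg (K : ℝ) (w : (ℝ × V) × V) : ℝ :=
  min (‖w.1.2‖ ^ 2 - w.1.1 ^ 2 - 3 / (4 * K ^ 2) * ‖w.1.2‖ ^ 2)
    (2 * (‖w.1.2‖ ^ 2 - w.1.1 ^ 2) - ‖w.2‖ ^ 2)

theorem gg_hom (K r : ℝ) (w : (ℝ × V) × V) : gg K (r • w) = r ^ 2 * gg K w := by
  simp only [gg, Prod.smul_fst, Prod.smul_snd, norm_smul, mul_pow, Real.norm_eq_abs, sq_abs,
    smul_eq_mul]
  rw [mul_min_of_nonneg _ _ (sq_nonneg r)]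
  congr 1 <;> ring

theorem ver_ne (h : m.OK) (a0 : 0 < a) {z η : V × V} (η0 : η ≠ 0)
    (hc : a * ‖m.hor z η‖ ≤ ‖m.ver z η‖) : 0 < ‖m.ver z η‖ := by
  refine norm_pos_iff.2 fun e => η0 ?_
  rw [e, norm_zero] at hc
  have h1 : m.hor z η = 0 := norm_le_zero_iff.1 (by nlinarith [norm_nonneg (m.hor z η)])
  have h2 : η.1 = 0 := by
    rw [← h.RS z.1 η.1]
    change m.R z.1 (m.hor z η) = 0
    rw [h1, map_zero]
  have h3 : η.2 + m.om z.1 η.1 z.2 = 0 := e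
  rw [h2] at h3
  exact Prod.ext h2 (by simpa using h3)

theorem near (h : m.OK) (hj : m.Jac) (hl : m.Had lg) (a0 : 0 < a) (hX : XI m lg a δ c K o X)
    (K1 : 1 ≤ K) (k0 : 0 ≤ c * δ) (k1 : c * δ ≤ 1 / 12) {z : V × V} (hz : ‖z.2‖ = 1)
    (hr : a * ‖lg (z.1, o)‖ ≤ 3 / 2) : ∃ ε, 0 < ε ∧ ∀ᶠ q : (V × V) × V × V in 𝓝 (z, z),
      q.1 - q.2 ≠ 0 → |⟪z.2, m.hor z (q.1 - q.2)⟫| ≤ ε * ‖q.1 - q.2‖ →
      a ^ 2 * ‖m.hor z (q.1 - q.2)‖ ^ 2 - ‖m.ver z (q.1 - q.2)‖ ^ 2 ≤ ε * ‖q.1 - q.2‖ ^ 2 →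
      0 < gg K (X q.1 - X q.2, a • lg (o, q.1.1) - a • lg (o, q.2.1)) := by
  have c2 : ContDiff ℝ 1 fun y : V => lg (o, y) := hl.c1.comp (contDiff_const.prodMk contDiff_id)
  have s1 : HasStrictFDerivAt X (fderiv ℝ X z) z :=
    hX.c1.contDiffAt.hasStrictFDerivAt one_ne_zero
  have s2 : HasStrictFDerivAt (fun w : V × V => a • lg (o, w.1))
      (a • (fderiv ℝ (fun y : V => lg (o, y)) z.1).comp (.fst ℝ V V)) z :=
    ((c2.contDiffAt.hasStrictFDerivAt one_ne_zero).comp z hasStrictFDerivAt_fst).const_smul a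
  have s := s1.prodMk s2
  obtain ⟨ε, e0, he⟩ := cone ((fderiv ℝ X z).prod
      (a • (fderiv ℝ (fun y : V => lg (o, y)) z.1).comp (.fst ℝ V V)))
    ((innerSL ℝ z.2).comp (m.hor z))
    (g := fun η => a ^ 2 * ‖m.hor z η‖ ^ 2 - ‖m.ver z η‖ ^ 2) (G := gg K) (by fun_prop)
    (by unfold gg; fun_prop)
    (fun r η _ => by
      simp only [map_smul, norm_smul, mul_pow, Real.norm_eq_abs, sq_abs]
      ring) (fun r ζ _ => gg_hom K r ζ) (fun η η0 leg hg => by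
      have hc : a * ‖m.hor z η‖ ≤ ‖m.ver z η‖ :=
        abs_le_of_sq_le_sq' (by rw [mul_pow]; linarith) (norm_nonneg _) |>.2
      have v0 := ver_ne h a0 η0 hc
      obtain ⟨b1, -, b3⟩ := (hX.est z hz hr).2 η 1 zero_le_one le_rfl leg (by rwa [one_mul])
      have b4 : ‖a • fderiv ℝ (fun y : V => lg (o, y)) z.1 η.1‖ ≤ ‖m.ver z η‖ := by
        rw [norm_smul, Real.norm_eq_abs, abs_of_pos a0]
        exact (mul_le_mul_of_nonneg_left (DF.DER.le h hj hl o z.1 η.1) a0.le).trans hc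
      have b5 := pow_le_pow_left₀ (norm_nonneg _) b4 2
      have b6 := pow_le_pow_left₀ (norm_nonneg _) b1 2
      have b7 : c * δ * (a * ‖lg (z.1, o)‖) ≤ 1 / 8 := by
        nlinarith [mul_nonneg a0.le (norm_nonneg (lg (z.1, o)))]
      have v2 : 0 < ‖m.ver z η‖ ^ 2 := by positivity
      have b8 : 7 / 8 * ‖m.ver z η‖ ^ 2 ≤
          ‖(fderiv ℝ X z η).2‖ ^ 2 - (fderiv ℝ X z η).1 ^ 2 := by nlinarith
      have b9 : 3 / (4 * K ^ 2) * ‖(fderiv ℝ X z η).2‖ ^ 2 ≤ 3 / 4 * ‖m.ver z η‖ ^ 2 := by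
        rw [div_mul_eq_mul_div, div_le_iff₀ (by positivity)]
        nlinarith
      change 0 < min (‖(fderiv ℝ X z η).2‖ ^ 2 - (fderiv ℝ X z η).1 ^ 2 -
        3 / (4 * K ^ 2) * ‖(fderiv ℝ X z η).2‖ ^ 2)
        (2 * (‖(fderiv ℝ X z η).2‖ ^ 2 - (fderiv ℝ X z η).1 ^ 2) -
          ‖a • fderiv ℝ (fun y : V => lg (o, y)) z.1 η.1‖ ^ 2)
      exact lt_min (by linarith) (by linarith))
  refine ⟨ε, e0, ?_⟩
  filter_upwards [s.isLittleO.def e0] with q hq h0 h1 h2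
  exact he _ _ h0 h1 h2 hq

theorem unit (h : m.OK) (hj : m.Jac) (hl : m.Had lg) (a0 : 0 < a) (hX : XI m lg a δ c K o X)
    (K1 : 1 ≤ K) (k0 : 0 ≤ c * δ) (k1 : c * δ ≤ 1 / 12) (hf : CYF.Fr0 m σ a) {v : V}
    (hv : ‖v‖ = 1) (hr : a * ‖lg ((σ v).1, o)‖ ≤ 3 / 2) :
    ∀ᶠ p : V × V in 𝓝 (v, v), ‖p.1‖ = 1 → ‖p.2‖ = 1 → p.1 = p.2 ∨
      0 < gg K (X (σ p.2) - X (σ p.1), a • lg (o, (σ p.2).1) - a • lg (o, (σ p.1).1)) := by
  have v0 : v ≠ 0 := by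
    rintro rfl
    simp at hv
  have cs : ContinuousAt σ v := hf.c0.continuousAt (isOpen_ne.mem_nhds v0)
  obtain ⟨ε, e0, he⟩ := near h hj hl a0 hX K1 k0 k1 ((hf.norm v v0).trans hv) hr
  obtain ⟨c', c0, hc⟩ := hf.two v hv
  obtain ⟨M, hM⟩ : ∃ M, M = ‖m.ver (σ v)‖ ^ 2 + 1 := ⟨_, rfl⟩
  have M0 : 0 < M := by rw [hM]; positivity
  obtain ⟨C, hC⟩ := hc (min 1 (ε / M)) (lt_min one_pos (div_pos e0 M0))
  have t1 : Tendsto (fun p : V × V => σ p.1) (𝓝 (v, v)) (𝓝 (σ v)) :=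
    cs.tendsto.comp (continuous_fst.tendsto (v, v))
  have t2 : Tendsto (fun p : V × V => σ p.2) (𝓝 (v, v)) (𝓝 (σ v)) :=
    cs.tendsto.comp (continuous_snd.tendsto (v, v))
  have cl : Continuous fun z : V × V => (innerSL ℝ z.2).comp (m.hor z) := by
    have := h.cS.continuous
    unfold MF.hor
    fun_prop
  have t3 : Tendsto (fun p : V × V => ‖(innerSL ℝ (σ v).2).comp (m.hor (σ v)) -
      (innerSL ℝ (σ p.1).2).comp (m.hor (σ p.1))‖ + |C| * (2 * M / c' + 1) * ‖σ p.2 - σ p.1‖)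
      (𝓝 (v, v)) (𝓝 0) := by
    have a1 := (tendsto_const_nhds (x := (innerSL ℝ (σ v).2).comp (m.hor (σ v)))).sub
      ((cl.tendsto (σ v)).comp t1)
    have a2 := (a1.norm).add ((t2.sub t1).norm.const_mul (|C| * (2 * M / c' + 1)))
    simpa using a2
  filter_upwards [hC, (t2.prodMk_nhds t1).eventually he, t3.eventually (gt_mem_nhds e0)]
    with p p1 p2 p3 n1 n2
  obtain ⟨q1, q2⟩ := p1 n1 n2
  obtain ⟨d, hd⟩ : ∃ d, d = σ p.2 - σ p.1 := ⟨_, rfl⟩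
  simp only [← hd] at q1 q2 p2 p3
  by_cases d0 : d = 0
  · left
    rw [d0, map_zero, map_zero, norm_zero] at q1
    have : ‖p.2 - p.1‖ ^ 2 ≤ 0 := by
      by_contra hn
      nlinarith [mul_pos c0 (not_le.1 hn)]
    exact (sub_eq_zero.1 (norm_eq_zero.1 (pow_eq_zero_iff two_ne_zero |>.1
      (le_antisymm this (sq_nonneg _))))).symm
  right
  have w1 : ‖m.ver (σ v) d‖ ^ 2 ≤ M * ‖d‖ ^ 2 := by
    have := pow_le_pow_left₀ (norm_nonneg _) ((m.ver (σ v)).le_opNorm d) 2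
    rw [mul_pow] at this
    nlinarith [sq_nonneg ‖d‖]
  have m1 : min 1 (ε / M) ≤ 1 := min_le_left _ _
  have m2 : min 1 (ε / M) * M ≤ ε := (le_div_iff₀ M0).1 (min_le_right _ _)
  have m0 : 0 ≤ min 1 (ε / M) := (lt_min one_pos (div_pos e0 M0)).le
  have h2 : 0 ≤ a ^ 2 * ‖m.hor (σ v) d‖ ^ 2 := by positivity
  have h3 : 0 ≤ c' * ‖p.2 - p.1‖ ^ 2 := by positivity
  refine p2 d0 ?_ ?_
  · have w2 : ‖p.2 - p.1‖ ^ 2 ≤ 2 * M / c' * ‖d‖ ^ 2 := by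
      rw [div_mul_eq_mul_div, le_div_iff₀ c0]
      nlinarith [mul_le_mul_of_nonneg_right m1 (sq_nonneg ‖m.ver (σ v) d‖)]
    have w3 : |⟪(σ p.1).2, m.hor (σ p.1) d⟫| ≤ |C| * (2 * M / c' + 1) * ‖d‖ * ‖d‖ := by
      refine q2.trans ((mul_le_mul_of_nonneg_right (le_abs_self C) (by positivity)).trans ?_)
      nlinarith [mul_le_mul_of_nonneg_left w2 (abs_nonneg C)]
    have w4 := ((innerSL ℝ (σ v).2).comp (m.hor (σ v)) -
      (innerSL ℝ (σ p.1).2).comp (m.hor (σ p.1))).le_opNorm d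
    have w5 : ((innerSL ℝ (σ v).2).comp (m.hor (σ v)) -
        (innerSL ℝ (σ p.1).2).comp (m.hor (σ p.1))) d =
        ⟪(σ v).2, m.hor (σ v) d⟫ - ⟪(σ p.1).2, m.hor (σ p.1) d⟫ := rfl
    rw [w5, Real.norm_eq_abs] at w4
    have w6 := abs_sub_abs_le_abs_sub ⟪(σ v).2, m.hor (σ v) d⟫ ⟪(σ p.1).2, m.hor (σ p.1) d⟫
    nlinarith [mul_le_mul_of_nonneg_right p3.le (norm_nonneg d)]
  · nlinarith [mul_le_mul_of_nonneg_left w1 m0, mul_le_mul_of_nonneg_right m2 (sq_nonneg ‖d‖)]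

theorem loc (h : m.OK) (hj : m.Jac) (hl : m.Had lg) (a0 : 0 < a) (hX : XI m lg a δ c K o X)
    (K1 : 1 ≤ K) (k0 : 0 ≤ c * δ) (k1 : c * δ ≤ 1 / 12) (hf : CYF.Fr0 m σ a)
    (hr : ∀ v, ‖v‖ = 1 → a * ‖lg ((σ v).1, o)‖ ≤ 3 / 2)
    (hr' : ∀ v, ‖v‖ = 1 → a * ‖lg (o, (σ v).1)‖ ≤ 3 / 2) {s : NNReal}
    (hs : 1 - 1 / (4 * K ^ 2) ≤ (s : ℝ) ^ 2) :
    CYP.Loc K (3 / 2) s 2 (fun v => (X (σ v)).1) (fun v => (X (σ v)).2)
      fun v => a • lg (o, (σ v).1) := by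
  have e : ∀ (r : ℝ) q, r ≠ 0 → q ≠ 0 → X (σ (r • q)) = r • X (σ q) := fun r q r0 q0 => by
    rw [hf.hom r q r0 q0, hX.lin]
  have n0 : ∀ v : V, ‖v‖ = 1 → v ≠ 0 := fun v hv e => by simp [e] at hv
  refine ⟨(hX.c1.continuous.comp_continuousOn hf.c0).snd,
    (hl.c1.continuous.comp_continuousOn (continuousOn_const.prodMk hf.c0.fst)).const_smul a,
    fun r q r0 q0 => by rw [e r q r0 q0]; rfl, fun r q r0 q0 => by rw [e r q r0 q0]; rfl,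
    fun r q r0 q0 => by rw [hf.hom r q r0 q0], fun v hv => ⟨?_, ?_⟩, fun v hv => ?_⟩
  · rw [norm_smul, Real.norm_eq_abs, abs_of_pos a0]
    exact hr' v hv
  · exact (hX.est (σ v) ((hf.norm v (n0 v hv)).trans hv) (hr v hv)).1
  have tn : Tendsto (fun x : V => ‖x‖) (𝓝 v) (𝓝 1) := hv ▸ continuous_norm.tendsto v
  have tu : Tendsto (fun x : V => ‖x‖⁻¹ • x) (𝓝 v) (𝓝 v) := by
    simpa using (tn.inv₀ one_ne_zero).smul (tendsto_id (x := 𝓝 v))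
  have f1 : Tendsto (fun p : V × V => p.1) (𝓝 (v, v)) (𝓝 v) := continuous_fst.tendsto (v, v)
  have f2 : Tendsto (fun p : V × V => p.2) (𝓝 (v, v)) (𝓝 v) := continuous_snd.tendsto (v, v)
  filter_upwards [((tu.comp f2).prodMk_nhds (tu.comp f1)).eventually
      (unit h hj hl a0 hX K1 k0 k1 hf hv (hr v hv)),
    (tn.comp f1).eventually (lt_mem_nhds (by norm_num : (9 / 10 : ℝ) < 1)),
    (tn.comp f2).eventually (lt_mem_nhds (by norm_num : (9 / 10 : ℝ) < 1)),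
    (tn.comp f2).eventually (gt_mem_nhds (by norm_num : (1 : ℝ) < 11 / 10))] with p p1 p2 p3 p4
  simp only [Function.comp] at p1 p2 p3 p4
  obtain ⟨x, hx⟩ : ∃ x, x = ‖p.1‖⁻¹ • p.1 := ⟨_, rfl⟩
  obtain ⟨y, hy⟩ : ∃ y, y = ‖p.2‖⁻¹ • p.2 := ⟨_, rfl⟩
  rw [← hx, ← hy] at p1
  have r1 : ‖p.1‖ ≠ 0 := by linarith [p2, (by norm_num : (0 : ℝ) < 9 / 10)] |> ne_of_gt
  have r2 : ‖p.2‖ ≠ 0 := by linarith [p3, (by norm_num : (0 : ℝ) < 9 / 10)] |> ne_of_gt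
  have x1 : ‖x‖ = 1 := by rw [hx, norm_smul, norm_inv, norm_norm, inv_mul_cancel₀ r1]
  have y1 : ‖y‖ = 1 := by rw [hy, norm_smul, norm_inv, norm_norm, inv_mul_cancel₀ r2]
  have ex : p.1 = ‖p.1‖ • x := by rw [hx, smul_inv_smul₀ r1]
  have ey : p.2 = ‖p.2‖ • y := by rw [hy, smul_inv_smul₀ r2]
  have a1 : X (σ p.1) = ‖p.1‖ • X (σ x) := by rw [← e _ _ r1 (n0 x x1), ← ex]
  have a2 : X (σ p.2) = ‖p.2‖ • X (σ y) := by rw [← e _ _ r2 (n0 y y1), ← ey]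
  have a3 : (σ p.1).1 = (σ x).1 := by rw [ex, hf.hom _ _ r1 (n0 x x1)]
  have a4 : (σ p.2).1 = (σ y).1 := by rw [ey, hf.hom _ _ r2 (n0 y y1)]
  have l1 : ‖(X (σ x)).2‖ ^ 2 - (X (σ x)).1 ^ 2 = 1 := by
    rw [hX.nm, hf.norm x (n0 x x1), x1, one_pow]
  have l2 : ‖(X (σ y)).2‖ ^ 2 - (X (σ y)).1 ^ 2 = 1 := by
    rw [hX.nm, hf.norm y (n0 y y1), y1, one_pow]
  have p5 := p1 y1 x1
  have hAB : 3 / (4 * K ^ 2) * ‖(X (σ x)).2 - (X (σ y)).2‖ ^ 2 ≤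
      ‖(X (σ x)).2 - (X (σ y)).2‖ ^ 2 - ((X (σ x)).1 - (X (σ y)).1) ^ 2 ∧
      ‖a • lg (o, (σ x).1) - a • lg (o, (σ y).1)‖ ^ 2 ≤
      2 * (‖(X (σ x)).2 - (X (σ y)).2‖ ^ 2 - ((X (σ x)).1 - (X (σ y)).1) ^ 2) := by
    rcases p5 with p5 | p5
    · simp [p5]
    · have := lt_min_iff.1 p5
      simp only [Prod.fst_sub, Prod.snd_sub] at this
      exact ⟨by linarith [this.1], by linarith [this.2]⟩
  obtain ⟨c1, c2, c3⟩ := cone_bd K1 l1 l2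
    (hX.est (σ x) ((hf.norm x (n0 x x1)).trans x1) (hr x x1)).1 p2.le p3.le p4.le hAB.1 hAB.2
  rw [a1, a2, a3, a4]
  simp only [Prod.smul_fst, Prod.smul_snd, smul_eq_mul]
  refine ⟨abs_le_of_sq_le_sq (c1.trans ?_) (by positivity), ?_, fun hq => ?_⟩
  · rw [mul_pow]
    exact mul_le_mul_of_nonneg_right hs (sq_nonneg _)
  · exact (abs_le_of_sq_le_sq' c2 (by positivity)).2
  · rw [hq, sub_self, norm_zero] at c3
    have L0 : 0 ≤ ‖(X (σ x)).2 - (X (σ y)).2‖ ^ 2 - ((X (σ x)).1 - (X (σ y)).1) ^ 2 :=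
      le_trans (by positivity) hAB.1
    have q1 : ‖p.1‖ = ‖p.2‖ := by nlinarith [sq_nonneg (‖p.1‖ - ‖p.2‖)]
    rcases p5 with p5 | p5
    · rw [ex, ey, q1, p5]
    · have := (lt_min_iff.1 p5).1
      simp only [Prod.fst_sub, Prod.snd_sub] at this
      have b : 0 ≤ 3 / (4 * K ^ 2) * ‖(X (σ x)).2 - (X (σ y)).2‖ ^ 2 := by positivity
      nlinarith [sq_nonneg (‖p.1‖ - ‖p.2‖)]

end

end Pool.Agent.MP_3ee8cb_gt.CYX
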